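import Pool.Agent.helper64.FB.BM
import Pool.Agent.helper72.HP.A9
import Pool.Agent.helper72.HP.M2

set_option autoImplicit false

open scoped BigOperators Topology
open Filter MeasureTheory

namespace Pool.Agent.helper66.FB

open Finset
open Pool.Agent.helper72.UT (IsFor dep pth rt fors Reg lz pth_length)
open Pool.Agent.helper20.HP
open Pool.Agent.helper90.FN (EF glue dn sk avJ Hit)

theorem ML : ML_stmt := by
  intro S K hK k x y hc
  have h1 : ∀ z, 1 / (2 * (Fintype.card (S.V k) : ℝ)) ≤ (K k).pt (tmix (S.G k)) z y := by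
    intro z
    have hn : (0 : ℝ) < Fintype.card (S.V k) := by
      have : 0 < Fintype.card (S.V k) := by omega
      exact_mod_cast this
    have := tmix_spec (S.G k) (S.conn k) (S.trans k) hc z y
    rw [hK, div_le_iff₀ (by positivity)]
    have h3 := (abs_le.1 this).1
    linarith
  have e : (K k).pt (tmix (S.G k) + 1) x y =
      ∑ z, (K k).p x z * (K k).pt (tmix (S.G k)) z y := rfl
  rw [e]
  calc 1 / (2 * (Fintype.card (S.V k) : ℝ))
      = ∑ z, (K k).p x z * (1 / (2 * (Fintype.card (S.V k) : ℝ))) := by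
        rw [← Finset.sum_mul, (K k).sum_one, one_mul]
    _ ≤ _ := Finset.sum_le_sum fun z _ => mul_le_mul_of_nonneg_left (h1 z) ((K k).nonneg x z)

/-- upper bound for `κ` -/
theorem B1_kappa_le {n m a θ ε : ℝ} (hn : 0 < n) (hm : 1 ≤ m) (hθ : 1 ≤ θ) (hε : 0 < ε)
    (hmn : 16 * m ^ 2 ≤ n) (ha0 : 0 ≤ a) (ha : a ≤ m) :
    (m + 1) * (1 * a / 2) ^ 2 / (2 * n * (12 / ε * m * θ)) ≤ ε / 8 := by
  have hm0 : 0 < m := by linarith
  have hθ0 : 0 < θ := by linarith
  rw [div_le_iff₀ (by positivity)]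
  have h1 : (m + 1) * (1 * a / 2) ^ 2 ≤ (2 * m) * (m ^ 2 / 4) := by
    apply mul_le_mul (by linarith) _ (by positivity) (by positivity)
    have : a ^ 2 ≤ m ^ 2 := by nlinarith
    nlinarith
  have h2 : ε / 8 * (2 * n * (12 / ε * m * θ)) = 3 * n * m * θ := by
    field_simp; ring
  rw [h2]
  have h3 : (2 * m) * (m ^ 2 / 4) ≤ n * m := by nlinarith [mul_pos hn hm0]
  have h4 : n * m ≤ 3 * n * m * θ := by nlinarith [mul_pos hn hm0]
  linarith

/-- lower bound for `κ` -/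
theorem B1_le_kappa {n m a θ ε η : ℝ} (hn : 0 < n) (hm : 1 ≤ m) (hθ : 1 ≤ θ) (hε : 0 < ε)
    (hη : 0 < η) (hnm : n ≤ 64 * m ^ 2) (ha : η * m / 2 ≤ a) :
    η ^ 2 * ε / (24576 * θ) ≤ (m + 1) * (1 * a / 2) ^ 2 / (2 * n * (12 / ε * m * θ)) := by
  have hm0 : 0 < m := by linarith
  have hθ0 : 0 < θ := by linarith
  rw [div_le_div_iff₀ (by positivity) (by positivity)]
  have h1 : η ^ 2 * ε * (2 * n * (12 / ε * m * θ)) = 24 * η ^ 2 * n * m * θ := by
    field_simp; ring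
  rw [h1]
  have h2 : (η * m / 2) ^ 2 ≤ a ^ 2 := by
    apply pow_le_pow_left₀ (by positivity) ha
  have h3 : m * (η * m / 2) ^ 2 / 4 ≤ (m + 1) * (1 * a / 2) ^ 2 := by
    have : (1 * a / 2) ^ 2 = a ^ 2 / 4 := by ring
    rw [this]
    have h5 : 0 ≤ a ^ 2 := sq_nonneg a
    nlinarith
  have h4 : 24 * η ^ 2 * n * m * θ ≤ 24 * η ^ 2 * (64 * m ^ 2) * m * θ := by
    have : 0 ≤ 24 * η ^ 2 * m * θ := by positivity
    nlinarith
  have h5 : 24 * η ^ 2 * (64 * m ^ 2) * m * θ = m * (η * m / 2) ^ 2 / 4 * (24576 * θ) := by ring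
  rw [h5] at h4
  exact h4.trans (mul_le_mul_of_nonneg_right h3 (by positivity))

/-- the energy term -/
theorem B1_energy {n m a θ ε : ℝ} (hn : 0 < n) (hm : 1 ≤ m) (hθ : 1 ≤ θ) (hε : 0 < ε)
    (hmn : 16 * m ^ 2 ≤ n) (ha0 : 0 ≤ a) (ha : a ≤ m) :
    1 * (2 * m * θ + 2 * 1 * a * m * (m + 1) / n) / (12 / ε * m * θ) ≤ ε / 4 := by
  have hm0 : 0 < m := by linarith
  have hθ0 : 0 < θ := by linarith
  rw [div_le_iff₀ (by positivity)]
  have h1 : ε / 4 * (12 / ε * m * θ) = 3 * m * θ := by field_simp; ring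
  rw [h1]
  have h2 : 2 * 1 * a * m * (m + 1) / n ≤ m * θ := by
    rw [div_le_iff₀ hn]
    have h3 : 2 * 1 * a * m * (m + 1) ≤ 2 * m * m * (2 * m) := by
      have : a * m * (m + 1) ≤ m * m * (2 * m) := by
        apply mul_le_mul _ (by linarith) (by positivity) (by positivity)
        nlinarith
      linarith
    have h4 : 2 * m * m * (2 * m) ≤ m * θ * n := by
      have h5 : 2 * m * m * (2 * m) = 4 * m ^ 2 * m := by ring
      rw [h5]
      have h6 : 4 * m ^ 2 ≤ n := by nlinarith [sq_nonneg m]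
      have h7 : 4 * m ^ 2 * m ≤ n * m := mul_le_mul_of_nonneg_right h6 hm0.le
      have h8 : n * m ≤ m * θ * n := by nlinarith [mul_pos hn hm0]
      linarith
    linarith
  linarith

/-- the mass of the bad words -/
theorem B1_bad {n m a θ η Λ s CZ' : ℝ} (hn : 0 < n) (hm : 1 ≤ m) (hθ : 1 ≤ θ) (hη : 0 < η)
    (hΛ : 0 < Λ) (hs : s ^ 2 = n) (hs1 : 1 ≤ s) (hms : 4 * m ≤ s) (ha0 : 0 ≤ a) (ha : a ≤ η * m)
    (hC : 0 ≤ CZ') :
    CZ' * (a / m) * (θ + m * (Λ * s + 1) * (3 / (2 * n))) ≤ CZ' * η * (θ + Λ + 1) := by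
  have hm0 : 0 < m := by linarith
  have h1 : a / m ≤ η := by rw [div_le_iff₀ hm0]; exact ha
  have h2 : m * (Λ * s + 1) * (3 / (2 * n)) ≤ Λ + 1 := by
    rw [mul_div_assoc', div_le_iff₀ (by positivity)]
    have h3 : m * (Λ * s + 1) ≤ s / 4 * ((Λ + 1) * s) := by
      apply mul_le_mul (by linarith) _ (by positivity) (by positivity)
      nlinarith
    have h4 : s / 4 * ((Λ + 1) * s) = (Λ + 1) * n / 4 := by rw [← hs]; ring
    rw [h4] at h3
    have h5 : 0 < (Λ + 1) * n := by positivity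
    linarith
  have h3 : 0 ≤ θ + m * (Λ * s + 1) * (3 / (2 * n)) := by positivity
  calc CZ' * (a / m) * (θ + m * (Λ * s + 1) * (3 / (2 * n)))
      ≤ CZ' * η * (θ + m * (Λ * s + 1) * (3 / (2 * n))) :=
        mul_le_mul_of_nonneg_right (mul_le_mul_of_nonneg_left h1 hC) h3
    _ ≤ CZ' * η * (θ + Λ + 1) :=
        mul_le_mul_of_nonneg_left (by linarith) (mul_nonneg hC hη.le)

theorem B1 (hLC : LC_stmt) (hNF : NF_stmt) (hK1 : K1_stmt) (hIN : IN_stmt) (hSS : SS_stmt)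
    (hQE : QE_stmt) (hWI : WI_stmt) (hK2 : K2_stmt) (hEC : EC_stmt) (hES : ES_stmt)
    (hQH : QH_stmt) : B1_stmt := by
  intro S K hK hT ε hε
  set θ : ℝ := max S.θ 1 with hθdef
  have hθ : 1 ≤ θ := le_max_right _ _
  obtain ⟨Λ, hΛ, hTk⟩ := hT (ε / 16) (by positivity)
  have hCZ : 0 < CZ θ := by unfold CZ; positivity
  have hden : 0 < CZ θ * (θ + Λ + 1) := by positivity
  set η : ℝ := min 1 (ε / 16 / (CZ θ * (θ + Λ + 1))) with hηdef
  have hη : 0 < η := lt_min one_pos (by positivity)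
  have hη1 : η ≤ 1 := min_le_left _ _
  have hη2 : CZ θ * η * (θ + Λ + 1) ≤ ε / 16 := by
    have h1 : η ≤ ε / 16 / (CZ θ * (θ + Λ + 1)) := min_le_right _ _
    rw [le_div_iff₀ hden] at h1
    linarith
  set κ₀ : ℝ := η ^ 2 * ε / (24576 * θ) with hκ₀
  have hκ₀pos : 0 < κ₀ := by positivity
  refine ⟨2 / κ₀ + 2, by positivity, ?_⟩
  have hcard : Tendsto (fun k => (Fintype.card (S.V k) : ℝ)) atTop atTop :=
    tendsto_natCast_atTop_atTop.comp S.card
  have hsq : Tendsto (fun k => Real.sqrt (Fintype.card (S.V k) : ℝ)) atTop atTop :=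
    Real.tendsto_sqrt_atTop.comp hcard
  filter_upwards [par_eventually S K hK, hTk, hsq.eventually_ge_atTop (max 10 (16 / η)),
    hcard.eventually_ge_atTop 2] with k hP hTk' hs' hc2
  have hs10 : (10 : ℝ) ≤ Real.sqrt (Fintype.card (S.V k) : ℝ) := (le_max_left _ _).trans hs'
  have hsη : 16 / η ≤ Real.sqrt (Fintype.card (S.V k) : ℝ) := (le_max_right _ _).trans hs'
  have hcn : 2 ≤ Fintype.card (S.V k) := by exact_mod_cast hc2
  obtain ⟨d, hR⟩ := M2_reg (S.G k) (S.conn k) (S.trans k) hcn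
  have hKp := M2_kernel hR (K k) (fun t x y => hK k t x y)
  set n : ℝ := (Fintype.card (S.V k) : ℝ) with hn
  set s : ℝ := Real.sqrt n with hs
  have hn0 : 0 < n := by linarith
  have hs2 : s ^ 2 = n := Real.sq_sqrt hn0.le
  set L : ℕ := Nat.sqrt (Fintype.card (S.V k)) with hL
  have hLs : (L : ℝ) ≤ s := by
    rw [hs, hn]
    exact Real.nat_sqrt_le_real_sqrt
  have hsL : s < (L : ℝ) + 1 := by
    rw [hs, Real.sqrt_lt' (by positivity)]
    have := Nat.lt_succ_sqrt (Fintype.card (S.V k))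
    have h3 : n < ((L : ℝ) + 1) * ((L : ℝ) + 1) := by
      rw [hn]; exact_mod_cast this
    nlinarith
  set m : ℕ := L / 4 with hm
  have hm4 : 4 * m ≤ L := Nat.mul_div_le L 4
  have hm4' : L < 4 * m + 4 := by omega
  have hmR : (L : ℝ) < 4 * m + 4 := by exact_mod_cast hm4'
  have hmR2 : 4 * (m : ℝ) ≤ L := by exact_mod_cast hm4
  have hms : 4 * (m : ℝ) ≤ s := hmR2.trans hLs
  have hsm : s ≤ 8 * (m : ℝ) := by linarith
  have hm1 : (1 : ℝ) ≤ m := by linarith
  have hm1' : 1 ≤ m := by exact_mod_cast hm1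
  have hmn : 16 * (m : ℝ) ^ 2 ≤ n := by nlinarith
  have hnm : n ≤ 64 * (m : ℝ) ^ 2 := by nlinarith
  have hηm : 2 ≤ η * m := by
    rw [div_le_iff₀ hη] at hsη
    nlinarith
  set a : ℕ := ⌊η * (m : ℝ)⌋₊ with ha
  have haR : (a : ℝ) ≤ η * m := Nat.floor_le (by positivity)
  have haR2 : η * m < (a : ℝ) + 1 := Nat.lt_floor_add_one _
  have ham : (a : ℝ) ≤ m := by nlinarith
  have ha0 : (0 : ℝ) ≤ a := Nat.cast_nonneg a
  have ha2 : η * m / 2 ≤ a := by linarith
  have ha1 : 1 ≤ a := by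
    have : (1 : ℝ) ≤ a := by linarith
    exact_mod_cast this
  set κ : ℝ := ((m : ℝ) + 1) * (((1 : ℕ) : ℝ) * a / 2) ^ 2 / (2 * n * (12 / ε * m * θ)) with hκ
  have hκ' : κ = ((m : ℝ) + 1) * (1 * (a : ℝ) / 2) ^ 2 / (2 * n * (12 / ε * m * θ)) := by
    rw [hκ, Nat.cast_one]
  have hκ1 : κ ≤ ε / 8 := by
    rw [hκ']; exact B1_kappa_le hn0 hm1 hθ hε hmn ha0 ham
  have hκ2 : κ₀ ≤ κ := by
    rw [hκ']; exact B1_le_kappa hn0 hm1 hθ hε hη hnm ha2
  have hκpos : 0 < κ := lt_of_lt_of_le hκ₀pos hκ2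
  have hE : 0 < 12 / ε * (m : ℝ) * θ := by positivity
  set p : ℝ := CZ θ * η * (θ + Λ + 1) + ε / 16 with hp
  have hp0 : 0 ≤ p := by positivity
  have hp1 : p ≤ ε / 8 := by rw [hp]; linarith
  -- mass of the bad words
  have hbad : ∀ D : Finset (S.V k), D = {S.o k} ∨ ({S.o k} ⊆ D ∧ 2 ≤ 1) → ∀ N,
      kws (K k) D N (fun y l => ind (m ≤ l.length ∧ (top m y l).card < a)) ≤
        Fintype.card (S.V k) * p := by
    intro D hD N
    rcases hD with hD | hD
    swap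
    · exact absurd hD.2 (by norm_num)
    subst hD
    have hΛ' : (0 : ℝ) ≤ Λ * s + 1 := by positivity
    have b1 := BM hLC hNF hK1 (S.V k) (K k) θ (tmix (S.G k) + 1) hP {S.o k} m a N (Λ * s + 1)
      hm1' hm4 hΛ'
    have b2 := BL (S.V k) (K k) {S.o k} (2 * (tmix (S.G k) + 1)) N (Λ * s + 1)
      (by nlinarith [mul_pos hΛ (by linarith : (0 : ℝ) < s)])
    have b3 := hWI (S.V k) (S.G k) d (K k) hR hKp {S.o k} (Finset.singleton_nonempty _)
      (fun γ => ind (Λ * s + 1 < (γ.length : ℝ))) 1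
      (fun γ => by rw [abs_of_nonneg (ind_nonneg _)]; exact ind_le_one _)
    have b4 : kws (K k) {S.o k} N (fun y l => ind (Λ * s + 1 < ((run [y] l).length : ℝ))) ≤
        EF (S.G k) {S.o k} (fun g => ∑ v,
          ind (Λ * s + 1 < ((pth {S.o k} g v).length : ℝ))) := by
      unfold kws
      exact sum_le_hasSum (range N)
        (fun t _ => BM_kw_nonneg (K k) _ t (fun _ _ _ => ind_nonneg _)) b3
    have b5 : EF (S.G k) {S.o k} (fun g => ∑ v,
          ind (Λ * s + 1 < ((pth {S.o k} g v).length : ℝ))) =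
        EF (S.G k) {S.o k} (fun f => ∑ v, ind (Λ * s < dep {S.o k} f v)) := by
      congr 1
      funext g
      apply Finset.sum_congr rfl
      intro v _
      apply ind_congr
      rw [pth_length]
      push_cast
      constructor <;> intro h <;> linarith
    rw [b5] at b4
    have b6 := b4.trans hTk'
    have b7 := B1_bad (a := (a : ℝ)) hn0 hm1 hθ hη hΛ hs2 (by linarith) hms ha0 haR hCZ.le
    have b8 := mul_le_mul_of_nonneg_left b7 hn0.le
    have b9 := b1.trans (add_le_add b8 (b2.trans b6))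
    refine b9.trans (le_of_eq ?_)
    rw [hp]
    ring
  have main := hIN hSS hQE hWI hK2 hEC hES hK1 (S.V k) (S.G k) d (K k) θ (tmix (S.G k) + 1) hR hKp
    hP {S.o k} m a 1 κ p (12 / ε * m * θ) (Finset.singleton_nonempty _) hm4 ha1 le_rfl hE hp0
    hκ hbad
  have henergy : ((1 : ℕ) : ℝ) * (2 * m * θ + 2 * ((1 : ℕ) : ℝ) * a * m * (m + 1) / n) /
      (12 / ε * m * θ) ≤ ε / 4 := by
    rw [Nat.cast_one]; exact B1_energy hn0 hm1 hθ hε hmn ha0 ham
  have hfin : it (S.G k) 1 (fun D => ind (Q (K k) D m < κ)) {S.o k} ≤ ε := by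
    refine main.trans ?_
    linarith
  -- comparison with `Hit`
  refine le_trans ?_ hfin
  have hpt : ∀ D : Finset (S.V k),
      ind (¬ Hit (K k) D ⌊(2 / κ₀ + 2) * s⌋₊) ≤ ind (Q (K k) D m < κ) := by
    intro D
    apply ind_mono
    intro hnot
    by_contra hcon
    push Not at hcon
    apply hnot
    refine hQH (S.V k) (K k) D m (tmix (S.G k) + 1) _ κ (by omega)
      (fun x y => ML S K hK k x y hcn) hκpos hcon ?_
    have hh : 16 * ((tmix (S.G k) + 1 : ℕ) : ℝ) ≤ L := by exact_mod_cast hP.h_le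
    have h1 : 2 / κ ≤ 2 / κ₀ := by
      apply div_le_div_of_nonneg_left (by norm_num) hκ₀pos hκ2
    have h2 : ((tmix (S.G k) + 1 : ℕ) : ℝ) + m ≤ s := by linarith
    have h3 : (((tmix (S.G k) + 1 : ℕ) : ℝ) + m) * (2 / κ + 1) ≤ s * (2 / κ₀ + 1) := by
      apply mul_le_mul h2 (by linarith) (by positivity) (by positivity)
    have h4 : (2 / κ₀ + 2) * s - 1 < (⌊(2 / κ₀ + 2) * s⌋₊ : ℝ) := Nat.sub_one_lt_floor _
    have h5 : s * (2 / κ₀ + 1) ≤ (2 / κ₀ + 2) * s - 1 := by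
      have : (2 / κ₀ + 2) * s - 1 - s * (2 / κ₀ + 1) = s - 1 := by ring
      linarith
    linarith
  show (∑ v, EF (S.G k) {S.o k} (fun g => it (S.G k) 0 _ (dn {S.o k} g v))) / _ ≤
    (∑ v, EF (S.G k) {S.o k} (fun g => it (S.G k) 0 _ (dn {S.o k} g v))) / _
  apply div_le_div_of_nonneg_right _ hn0.le
  apply Finset.sum_le_sum
  intro v _
  unfold EF
  apply div_le_div_of_nonneg_right _ (Nat.cast_nonneg _)
  apply Finset.sum_le_sum
  intro g _
  exact hpt _

end Pool.Agent.helper66.FB
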