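import Pool.Agent.helper66.FB.Spec
import Pool.Agent.helper31.HP.A1
import Pool.Agent.helper13.HP.A3

set_option autoImplicit false

open scoped BigOperators Topology
open Filter MeasureTheory

namespace Pool.Agent.helper66.FB

open Finset
open Pool.Agent.helper20.HP

variable {V : Type} [Fintype V] [DecidableEq V] (K : HW V)

theorem BM_kw_mono (D : Finset V) (t : ℕ) {F G : V → List V → ℝ}
    (h : ∀ y l, l.length = t → F y l ≤ G y l) : kw K D t F ≤ kw K D t G := by
  unfold kw
  refine Finset.sum_le_sum (fun y _ => W_mono K t y (fun l hl => ?_))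
  exact mul_le_mul_of_nonneg_left (h y l hl) (ind_nonneg _)

theorem BM_kw_nonneg (D : Finset V) (t : ℕ) {F : V → List V → ℝ}
    (h : ∀ y l, l.length = t → 0 ≤ F y l) : 0 ≤ kw K D t F :=
  Finset.sum_nonneg (fun _ _ => W_nonneg K t _ (fun l hl => mul_nonneg (ind_nonneg _) (h _ l hl)))

theorem BM_kw_add (D : Finset V) (t : ℕ) (F G : V → List V → ℝ) :
    kw K D t (fun y l => F y l + G y l) = kw K D t F + kw K D t G := by
  unfold kw
  rw [← Finset.sum_add_distrib]
  refine Finset.sum_congr rfl (fun y _ => ?_)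
  rw [← W_add]
  exact W_congr K t _ (fun l _ => by ring)

theorem BM_kw_mul (D : Finset V) (t : ℕ) (c : ℝ) (F : V → List V → ℝ) :
    kw K D t (fun y l => c * F y l) = c * kw K D t F := by
  unfold kw
  rw [Finset.mul_sum]
  refine Finset.sum_congr rfl (fun y _ => ?_)
  rw [← W_mul_left]
  exact W_congr K t _ (fun l _ => by ring)

theorem BM_kw_sum {ι : Type*} (s : Finset ι) (D : Finset V) (t : ℕ) (F : ι → V → List V → ℝ) :
    kw K D t (fun y l => ∑ i ∈ s, F i y l) = ∑ i ∈ s, kw K D t (F i) := by
  unfold kw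
  rw [Finset.sum_comm]
  refine Finset.sum_congr rfl (fun y _ => ?_)
  rw [← W_sum]
  exact W_congr K t _ (fun l _ => by rw [Finset.mul_sum])

theorem BM_kw_split (D : Finset V) (s k : ℕ) (F : V → List V → ℝ) :
    kw K D (s + k) F = kw K D s (fun y l =>
      W K k (lst y l) (fun l' => ind (∀ z ∈ l', z ∉ D) * F y (l ++ l'))) := by
  unfold kw
  refine Finset.sum_congr rfl (fun y _ => ?_)
  rw [W_split]
  refine W_congr K s _ (fun l _ => ?_)
  rw [← W_mul_left]
  refine W_congr K k _ (fun l' _ => ?_)
  rw [ind_congr List.forall_mem_append, ind_and]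
  ring

theorem BM_kws_mono (D : Finset V) (N : ℕ) {F G : V → List V → ℝ}
    (h : ∀ y l, F y l ≤ G y l) : kws K D N F ≤ kws K D N G :=
  Finset.sum_le_sum (fun t _ => BM_kw_mono K D t (fun y l _ => h y l))

theorem BM_kws_add (D : Finset V) (N : ℕ) (F G : V → List V → ℝ) :
    kws K D N (fun y l => F y l + G y l) = kws K D N F + kws K D N G := by
  unfold kws
  rw [← Finset.sum_add_distrib]
  exact Finset.sum_congr rfl (fun t _ => BM_kw_add K D t F G)

theorem BM_kws_mul (D : Finset V) (N : ℕ) (c : ℝ) (F : V → List V → ℝ) :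
    kws K D N (fun y l => c * F y l) = c * kws K D N F := by
  unfold kws
  rw [Finset.mul_sum]
  exact Finset.sum_congr rfl (fun t _ => BM_kw_mul K D t c F)

theorem BM_kws_sum {ι : Type*} (s : Finset ι) (D : Finset V) (N : ℕ) (F : ι → V → List V → ℝ) :
    kws K D N (fun y l => ∑ i ∈ s, F i y l) = ∑ i ∈ s, kws K D N (F i) := by
  unfold kws
  rw [Finset.sum_comm]
  exact Finset.sum_congr rfl (fun t _ => BM_kw_sum K s D t F)

omit [Fintype V] [DecidableEq V] in
/-- shifting the summation index -/
theorem BM_shift (g : ℕ → ℝ) (hg : ∀ s, 0 ≤ g s) (N m j : ℕ) (hj : j ≤ m) :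
    ∑ t ∈ (range N).filter (fun t => m ≤ t), g (t - j) ≤ ∑ s ∈ range N, g s := by
  have hinj : Set.InjOn (fun t => t - j) ((range N).filter (fun t => m ≤ t) : Set ℕ) := by
    intro s hs t ht hst
    simp only [coe_filter, Set.mem_ofPred_eq] at hs ht
    simp only at hst
    omega
  rw [← Finset.sum_image (f := g) (g := fun t => t - j)
    (s := (range N).filter (fun t => m ≤ t)) hinj]
  apply Finset.sum_le_sum_of_subset_of_nonneg
  · intro s hs
    rw [Finset.mem_image] at hs
    obtain ⟨t, ht, rfl⟩ := hs
    rw [Finset.mem_filter, Finset.mem_range] at ht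
    rw [Finset.mem_range]
    omega
  · intro s _ _; exact hg s

/-- BL -/
theorem BL : BL_stmt := by
  intro V _ _ K D b N Λ hΛ
  have h0 : kws K D N (fun y l => ind (Λ < ((run [y] (l.rdrop b)).length : ℝ))) ≤
      ∑ t ∈ (range N).filter (fun t => b ≤ t),
        kw K D (t - b) (fun y l => ind (Λ < ((run [y] l).length : ℝ))) := by
    unfold kws
    rw [Finset.sum_filter]
    apply Finset.sum_le_sum
    intro t _
    by_cases ht : b ≤ t
    · rw [if_pos ht]
      have e : t = (t - b) + b := by omega
      conv_lhs => rw [e, BM_kw_split]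
      apply BM_kw_mono
      intro y l hl
      have h1 : W K b (lst y l) (fun l' => ind (∀ z ∈ l', z ∉ D) *
          ind (Λ < ((run [y] ((l ++ l').rdrop b)).length : ℝ))) ≤
          W K b (lst y l) (fun _ => ind (Λ < ((run [y] l).length : ℝ))) := by
        apply W_mono
        intro l' hl'
        have e2 : (l ++ l').rdrop b = l := by
          rw [← hl']; exact List.rdrop_append_length
        rw [e2]
        have a1 := ind_le_one (∀ z ∈ l', z ∉ D)
        have a2 := ind_nonneg (Λ < ((run [y] l).length : ℝ))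
        calc _ ≤ 1 * ind (Λ < ((run [y] l).length : ℝ)) := mul_le_mul_of_nonneg_right a1 a2
          _ = _ := one_mul _
      rw [W_const] at h1
      exact h1
    · rw [if_neg ht]
      have : kw K D t (fun y l => ind (Λ < ((run [y] (l.rdrop b)).length : ℝ))) ≤
          kw K D t (fun _ _ => 0) := by
        apply BM_kw_mono
        intro y l hl
        have e2 : l.rdrop b = [] := by
          unfold List.rdrop
          have : l.length - b = 0 := by omega
          rw [this, List.take_zero]
        rw [e2, run_nil, ind_false]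
        simp only [List.length_cons, List.length_nil, zero_add, Nat.cast_one]
        linarith
      refine this.trans (le_of_eq ?_)
      unfold kw
      apply Finset.sum_eq_zero
      intro y _
      have : (fun l : List V => ind (∀ z ∈ l, z ∉ D) * (0 : ℝ)) = fun _ => (0 : ℝ) := by
        funext l; ring
      rw [this, W_const]
  refine h0.trans ?_
  unfold kws
  exact BM_shift (fun s => kw K D s (fun y l => ind (Λ < ((run [y] l).length : ℝ))))
    (fun s => BM_kw_nonneg K D s (fun _ _ _ => ind_nonneg _)) N b b le_rfl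

omit [Fintype V] in
/-- the event of LC is implied by a small `top` -/
theorem BM_top (m a j : ℕ) (y : V) (l1 l2 : List V) (hj : j < m) (h2 : l2.length = j)
    (h1 : 0 < l1.length) (h : (top m y (l1 ++ l2)).card < a) :
    ((run (run [y] l1) l2).toFinset ∩ (lst y l1 :: l2).toFinset).card < a := by
  refine lt_of_le_of_lt (Finset.card_le_card ?_) h
  unfold top
  rw [run_append]
  apply Finset.inter_subset_inter_left
  intro z hz
  rw [List.mem_toFinset] at hz ⊢
  have hne : l1 ≠ [] := by
    intro h; rw [h] at h1; simp at h1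
  obtain ⟨l0, x, rfl⟩ : ∃ l0 x, l1 = l0 ++ [x] :=
    ⟨l1.dropLast, l1.getLast hne, (List.dropLast_append_getLast hne).symm⟩
  rw [lst_concat] at hz
  have e : l0 ++ [x] ++ l2 = l0 ++ (x :: l2) := by simp
  rw [e]
  unfold List.rtake
  have hle : (l0 ++ (x :: l2)).length - m ≤ l0.length := by
    simp only [List.length_append, List.length_cons]
    omega
  rw [List.drop_append_of_le_length hle, List.mem_append]
  exact Or.inr hz

/-- the expectation of the event of LC -/
noncomputable def BM_F (a j : ℕ) (y : V) (l : List V) : ℝ :=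
  W K j (lst y l) (fun l2 =>
    ind (((run (run [y] l) l2).toFinset ∩ (lst y l :: l2).toFinset).card < a))

theorem BM_F_nonneg (a j : ℕ) (y : V) (l : List V) : 0 ≤ BM_F K a j y l :=
  W_nonneg K j _ (fun _ _ => ind_nonneg _)

theorem BM_F_le_one (a j : ℕ) (y : V) (l : List V) : BM_F K a j y l ≤ 1 := by
  have := W_mono K j (lst y l) (f := fun l2 =>
    ind (((run (run [y] l) l2).toFinset ∩ (lst y l :: l2).toFinset).card < a))
    (g := fun _ => 1) (fun _ _ => ind_le_one _)
  rwa [W_const] at this

/-- one length and one `j` -/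
theorem BM_step (D : Finset V) (m a j t : ℕ) (hj : j < m) (ht : m ≤ t) :
    kw K D t (fun y l => ind (m ≤ l.length ∧ (top m y l).card < a)) ≤
      kw K D (t - j) (BM_F K a j) := by
  have e : t = (t - j) + j := by omega
  conv_lhs => rw [e, BM_kw_split]
  apply BM_kw_mono
  intro y l hl
  unfold BM_F
  apply W_mono
  intro l' hl'
  have a1 := ind_le_one (∀ z ∈ l', z ∉ D)
  have a2 := ind_nonneg (m ≤ (l ++ l').length ∧ (top m y (l ++ l')).card < a)
  calc _ ≤ 1 * ind (m ≤ (l ++ l').length ∧ (top m y (l ++ l')).card < a) :=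
        mul_le_mul_of_nonneg_right a1 a2
    _ = ind (m ≤ (l ++ l').length ∧ (top m y (l ++ l')).card < a) := one_mul _
    _ ≤ _ := by
        apply ind_mono
        rintro ⟨_, h2⟩
        exact BM_top m a j y l l' hj hl' (by omega) h2

/-- `m` times the mass of the bad words -/
theorem BM_mul (D : Finset V) (m a N : ℕ) :
    (m : ℝ) * kws K D N (fun y l => ind (m ≤ l.length ∧ (top m y l).card < a)) ≤
      kws K D N (fun y l => ∑ j ∈ range m, BM_F K a j y l) := by
  rw [BM_kws_sum]
  have h0 : kws K D N (fun y l => ind (m ≤ l.length ∧ (top m y l).card < a)) =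
      ∑ t ∈ (range N).filter (fun t => m ≤ t),
        kw K D t (fun y l => ind (m ≤ l.length ∧ (top m y l).card < a)) := by
    unfold kws
    rw [Finset.sum_filter]
    apply Finset.sum_congr rfl
    intro t _
    by_cases ht : m ≤ t
    · rw [if_pos ht]
    · rw [if_neg ht]
      unfold kw
      apply Finset.sum_eq_zero
      intro y _
      rw [W_congr K t y (g := fun _ => (0 : ℝ)), W_const]
      intro l hl
      show ind (∀ z ∈ l, z ∉ D) * ind (m ≤ l.length ∧ (top m y l).card < a) = 0
      rw [ind_false (p := m ≤ l.length ∧ (top m y l).card < a)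
        (fun h => ht (by rw [← hl]; exact h.1)), mul_zero]
  rw [h0]
  have h1 : (m : ℝ) * ∑ t ∈ (range N).filter (fun t => m ≤ t),
        kw K D t (fun y l => ind (m ≤ l.length ∧ (top m y l).card < a)) =
      ∑ _j ∈ range m, ∑ t ∈ (range N).filter (fun t => m ≤ t),
        kw K D t (fun y l => ind (m ≤ l.length ∧ (top m y l).card < a)) := by
    rw [Finset.sum_const, Finset.card_range, nsmul_eq_mul]
  rw [h1]
  apply Finset.sum_le_sum
  intro j hj
  rw [Finset.mem_range] at hj
  refine le_trans ?_ (BM_shift (fun s => kw K D s (BM_F K a j))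
    (fun s => BM_kw_nonneg K D s (fun y l _ => BM_F_nonneg K a j y l)) N m j hj.le)
  apply Finset.sum_le_sum
  intro t ht
  rw [Finset.mem_filter] at ht
  exact BM_step K D m a j t hj ht.2

/-- BM -/
theorem BM : BM_stmt := by
  intro hLC hNF hK1 V _ _ K θ h hP D m a N Λ hm hm4 hΛ
  have hmpos : (0 : ℝ) < m := by exact_mod_cast hm
  have hCZ : 0 ≤ CZ θ := by unfold CZ; positivity
  have key := BM_mul K D m a N
  have hpt : kws K D N (fun y l => ∑ j ∈ range m, BM_F K a j y l) ≤
      kws K D N (fun y l => CZ θ * a *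
        (ind (((run [y] (l.rdrop (2 * h))).length : ℝ) ≤ Λ) *
          ∑ u ∈ range m, W K u (lst y l) (fun l' => ind (lst (lst y l) l' ∈ run [y] l))) +
        m * ind (Λ < ((run [y] (l.rdrop (2 * h))).length : ℝ))) := by
    apply BM_kws_mono
    intro y l
    by_cases hl : ((run [y] (l.rdrop (2 * h))).length : ℝ) ≤ Λ
    · rw [ind_true hl, ind_false (not_lt.2 hl), one_mul, mul_zero, add_zero]
      obtain ⟨τ, hτ⟩ := run_head y [] l
      have hnd : (lst y l :: τ).Nodup := by
        rw [← hτ]; exact run_nodup (List.nodup_singleton y) l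
      have := hLC V K θ h hP (lst y l) τ hnd a m hm4
      unfold BM_F
      rw [hτ]
      exact this
    · push Not at hl
      rw [ind_false (not_le.2 hl), ind_true hl, zero_mul, mul_zero, zero_add, mul_one]
      calc ∑ j ∈ range m, BM_F K a j y l ≤ ∑ _j ∈ range m, (1 : ℝ) :=
            Finset.sum_le_sum (fun j _ => BM_F_le_one K a j y l)
        _ = m := by simp
  rw [BM_kws_add, BM_kws_mul, BM_kws_mul] at hpt
  have hnf := hNF hK1 V K θ h hP D m N Λ hm4 hΛ
  have h2 := mul_le_mul_of_nonneg_left hnf (mul_nonneg hCZ (Nat.cast_nonneg a))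
  have h3 := key.trans (hpt.trans (add_le_add_left h2 _))
  have h4 : (m : ℝ) * kws K D N (fun y l => ind (m ≤ l.length ∧ (top m y l).card < a)) ≤
      m * ((Fintype.card V : ℝ) *
        (CZ θ * (a / m) * (θ + m * Λ * (3 / (2 * (Fintype.card V : ℝ)))))
        + kws K D N (fun y l => ind (Λ < ((run [y] (l.rdrop (2 * h))).length : ℝ)))) := by
    refine h3.trans (le_of_eq ?_)
    field_simp
  exact le_of_mul_le_mul_left h4 hmpos

end Pool.Agent.helper66.FB
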