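import Pool.Agent.helper66.FB.Spec2
import Pool.Agent.helper72.UT.Total

/-!
# FB project (MP_5ae64c_pr), module H1: root probabilities are harmonic
-/

set_option autoImplicit false

open scoped BigOperators Topology
open Filter MeasureTheory

namespace Pool.Agent.helper66.FB

open Finset
open Pool.Agent.helper72.UT (IsFor dep pth rt fors Reg lz PathTo pot pot_step ker stepL stepL_cons
  rt_mem pth_eq_cons fors_nonempty)
open Pool.Agent.helper20.HP (ind HW W Par cc run lel lst lazyP tmix ustE height vol Setup CZ CP IsKer Zq)
open Pool.Agent.helper90.FN (EF glue dn sk avJ Hit BGoal)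

section
variable {V : Type} [Fintype V] [DecidableEq V]

omit [Fintype V] in
theorem H1_lz_symm (G : SimpleGraph V) (d : ℕ) (x y : V) : lz G d x y = lz G d y x := by
  classical
  unfold lz
  simp only [eq_comm (a := x) (b := y), G.adj_comm x y]

theorem H1_sum_head (D : Finset V) (o v : V) (f : V → V) :
    (open Classical in ∑ u ∈ univ.filter (fun u => rt D f u = o), ind ((pth D f u).head? = some v))
      = ind (rt D f v = o) := by
  classical
  have h1 : ∀ u, ind ((pth D f u).head? = some v) = if u = v then (1 : ℝ) else 0 := by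
    intro u
    obtain ⟨l, hl⟩ := pth_eq_cons D f u
    rw [hl]
    unfold ind
    simp
  simp only [h1]
  rw [Finset.sum_ite_eq']
  unfold ind
  simp

theorem H1_sum_ker (G : SimpleGraph V) (d : ℕ) (D : Finset V) (o v : V) (hv : v ∉ D) (f : V → V) :
    (open Classical in ∑ u ∈ univ.filter (fun u => rt D f u = o),
        ker (lz G d) D (fun γ => ind (γ.head? = some v)) (pth D f u))
      = ∑ z, lz G d v z * ind (rt D f z = o) := by
  classical
  have h1 : ∀ u, ker (lz G d) D (fun γ => ind (γ.head? = some v)) (pth D f u) = lz G d u v := by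
    intro u
    obtain ⟨l, hl⟩ := pth_eq_cons D f u
    rw [hl]
    show ∑ y, lz G d u y * (if y ∈ D then 0 else ind ((stepL (u :: l) y).head? = some v)) = _
    rw [Finset.sum_eq_single v]
    · obtain ⟨l', hl'⟩ := stepL_cons (u :: l) v
      rw [if_neg hv, hl']
      unfold ind
      simp
    · intro y _ hy
      obtain ⟨l', hl'⟩ := stepL_cons (u :: l) y
      rw [hl']
      unfold ind
      simp [hy]
    · intro h
      exact absurd (Finset.mem_univ _) h
  simp only [h1]
  rw [Finset.sum_filter]
  refine Finset.sum_congr rfl ?_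
  intro u _
  unfold ind
  rw [H1_lz_symm G d v u]
  split_ifs <;> simp

theorem H1_one (G : SimpleGraph V) (d : ℕ) (K : HW V) (hreg : Reg G d) (hK : K.p = lz G d)
    (D : Finset V) (o v : V) (ho : o ∈ D) (hv : v ∉ D) :
    EF G D (fun g => ind (rt D g v = o)) = ∑ z, K.p v z * EF G D (fun g => ind (rt D g z = o)) := by
  classical
  have hov : o ≠ v := fun h => hv (h ▸ ho)
  have h := pot_step G d hreg.pos (fun v => by convert hreg.reg v) D o ho
    (fun γ => ind (γ.head? = some v))
  have h2 : (ind (([o] : List V).head? = some v) : ℝ) = 0 := by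
    unfold ind
    simp [hov]
  rw [h2, mul_zero, zero_add] at h
  unfold pot at h
  have e1 : ∀ f ∈ fors G D, (∑ u ∈ univ.filter (fun u => rt D f u = o),
      (fun γ : List V => ind (γ.head? = some v)) (pth D f u)) = ind (rt D f v = o) := by
    intro f _
    convert H1_sum_head D o v f
  have e2 : ∀ f ∈ fors G D, (∑ u ∈ univ.filter (fun u => rt D f u = o),
      ker (lz G d) D (fun γ => ind (γ.head? = some v)) (pth D f u)) =
        ∑ z, lz G d v z * ind (rt D f z = o) := by
    intro f _
    convert H1_sum_ker G d D o v hv f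
  rw [Finset.sum_congr rfl e1, Finset.sum_congr rfl e2] at h
  unfold EF
  rw [h, hK, Finset.sum_comm, Finset.sum_div]
  refine Finset.sum_congr rfl ?_
  intro z _
  rw [← Finset.mul_sum, mul_div_assoc]

end

theorem H1 : H1_stmt := by
  intro V _ _ G d K hreg hK D A hD hA
  classical
  have hc : (0 : ℝ) < (fors G D).card := by
    exact_mod_cast Finset.card_pos.2 (fors_nonempty hreg.conn hD)
  have hind : ∀ (g : V → V) (v : V), ind (rt D g v ∈ A) = ∑ o ∈ A, ind (rt D g v = o) := by
    intro g v
    unfold ind
    by_cases h : rt D g v ∈ A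
    · rw [if_pos h, Finset.sum_eq_single (rt D g v)]
      · simp
      · intro o _ ho
        rw [if_neg (fun h' => ho h'.symm)]
      · intro h'
        exact absurd h h'
    · rw [if_neg h]
      symm
      refine Finset.sum_eq_zero ?_
      intro o ho
      rw [if_neg]
      rintro rfl
      exact h ho
  have hEF : ∀ v : V, EF G D (fun g => ind (rt D g v ∈ A)) =
      ∑ o ∈ A, EF G D (fun g => ind (rt D g v = o)) := by
    intro v
    unfold EF
    rw [← Finset.sum_div, Finset.sum_comm]
    congr 1
    refine Finset.sum_congr rfl ?_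
    intro g _
    exact hind g v
  refine ⟨?_, ?_, ?_⟩
  · intro x hx
    have : ∀ g : V → V, ind (rt D g x ∈ A) = 1 := by
      intro g
      rw [rt_mem (hA hx)]
      unfold ind
      simp [hx]
    unfold EF
    simp only [this, Finset.sum_const, nsmul_eq_mul, mul_one]
    exact div_self hc.ne'
  · intro x hx
    rw [Finset.mem_sdiff] at hx
    have : ∀ g : V → V, ind (rt D g x ∈ A) = 0 := by
      intro g
      rw [rt_mem hx.1]
      unfold ind
      simp [hx.2]
    unfold EF
    simp only [this, Finset.sum_const_zero, zero_div]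
  · intro x hxA hxD
    have hx : x ∉ D := by
      intro h
      exact hxD (Finset.mem_sdiff.mpr ⟨h, hxA⟩)
    show EF G D (fun g => ind (rt D g x ∈ A)) =
      ∑ z, K.p x z * EF G D (fun g => ind (rt D g z ∈ A))
    rw [hEF x]
    have h1 : ∀ o ∈ A, EF G D (fun g => ind (rt D g x = o)) =
        ∑ z, K.p x z * EF G D (fun g => ind (rt D g z = o)) := fun o ho =>
      H1_one G d K hreg hK D o x (hA ho) hx
    rw [Finset.sum_congr rfl h1, Finset.sum_comm]
    refine Finset.sum_congr rfl ?_
    intro z _
    rw [hEF z, Finset.mul_sum]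

end Pool.Agent.helper66.FB
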